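import Pool.Agent.Helper16.SD.GoalsE

/-!
# Packet SD-B_EXT (MP_fc6b1e_nt): the extension cut out by a homomorphism
-/

set_option autoImplicit false

namespace Pool.Agent.Helper7.SD.B_EXT

open Module

/-- Artin's theorem for a cyclic quotient. -/
theorem core (F L : Type) [Field F] [Field L] [Algebra F L] [FiniteDimensional F L]
    (G : Type) [Group G] (ρ : G →* (L ≃ₐ[F] L))
    (hfix : ∀ x : L, (∀ g, ρ g x = x) → ∃ y : F, algebraMap F L y = x)
    (n : ℕ) [NeZero n] (φ : G →* Multiplicative (ZMod n)) (hφ : Function.Surjective φ)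
    (hker : ∀ g, ρ g = 1 ↔ φ g = 1) :
    IsGalois F L ∧ finrank F L = n ∧ IsCyclic (L ≃ₐ[F] L) := by
  have hbot : IntermediateField.fixedField ρ.range = (⊥ : IntermediateField F L) := by
    rw [eq_bot_iff]
    intro x hx
    rw [IntermediateField.mem_fixedField_iff] at hx
    obtain ⟨y, hy⟩ := hfix x fun g => hx (ρ g) ⟨g, rfl⟩
    rw [← hy]
    exact (⊥ : IntermediateField F L).algebraMap_mem y
  have hGal : IsGalois F L := by
    apply IsGalois.of_fixedField_eq_bot
    rw [eq_bot_iff, ← hbot]
    intro x hx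
    rw [IntermediateField.mem_fixedField_iff] at hx ⊢
    intro f _
    exact hx f trivial
  have hsurj : Function.Surjective ρ := by
    rw [← MonoidHom.range_eq_top, ← IntermediateField.fixingSubgroup_fixedField ρ.range, hbot,
      IntermediateField.fixingSubgroup_bot]
  have hkk : ρ.ker = φ.ker := by
    ext g
    rw [MonoidHom.mem_ker, MonoidHom.mem_ker]
    exact hker g
  let e : (L ≃ₐ[F] L) ≃* Multiplicative (ZMod n) :=
    ((QuotientGroup.quotientKerEquivOfSurjective ρ hsurj).symm.trans
      (QuotientGroup.quotientMulEquivOfEq hkk)).trans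
      (QuotientGroup.quotientKerEquivOfSurjective φ hφ)
  refine ⟨hGal, ?_, ?_⟩
  · rw [← IsGalois.card_aut_eq_finrank F L, Nat.card_congr e.toEquiv]
    exact (Nat.card_congr Multiplicative.toAdd).trans (Nat.card_zmod n)
  · exact isCyclic_of_surjective e.symm e.symm.surjective

theorem t : Pool.Agent.Helper16.SD.B_EXT := by
  intro p _ K _ _ F R _ _ _ _ hFR k φ hφ hφR hunit
  have hp : p.Prime := Fact.out
  haveI : NeZero (p ^ k) := ⟨pow_ne_zero k hp.ne_zero⟩
  -- `φ 1 = 0`
  have hone : φ 1 = 0 := by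
    have h := hφ 1 1 (fun _ _ => rfl) (fun _ _ => rfl)
    rw [mul_one] at h
    simpa using h
  -- the subgroup `C`
  let C : Subgroup (AlgebraicClosure K ≃ₐ[K] AlgebraicClosure K) :=
    { carrier := {g | (∀ x ∈ F, g x = x) ∧ φ g = 0}
      one_mem' := ⟨fun _ _ => rfl, hone⟩
      mul_mem' := by
        rintro g h ⟨hg1, hg2⟩ ⟨hh1, hh2⟩
        refine ⟨fun x hx => ?_, ?_⟩
        · rw [AlgEquiv.mul_apply, hh1 x hx, hg1 x hx]
        · rw [hφ g h hg1 hh1, hg2, hh2, add_zero]
      inv_mem' := by
        rintro g ⟨hg1, hg2⟩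
        have hg1' : ∀ x ∈ F, g⁻¹ x = x := by
          intro x hx
          have h : g⁻¹ (g x) = x := by
            rw [← AlgEquiv.mul_apply, inv_mul_cancel, AlgEquiv.one_apply]
          rwa [hg1 x hx] at h
        refine ⟨hg1', ?_⟩
        have h := hφ g g⁻¹ hg1 hg1'
        rw [mul_inv_cancel, hone, hg2, zero_add] at h
        exact h.symm }
  have hCmem : ∀ g, g ∈ C ↔ (∀ x ∈ F, g x = x) ∧ φ g = 0 := fun g => Iff.rfl
  have hRC : R.fixingSubgroup ≤ C := by
    intro g hg
    rw [IntermediateField.mem_fixingSubgroup_iff] at hg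
    exact ⟨fun x hx => hg x (hFR hx), hφR g hg⟩
  have hCopen : IsOpen (C : Set (AlgebraicClosure K ≃ₐ[K] AlgebraicClosure K)) :=
    Subgroup.isOpen_mono hRC (IntermediateField.fixingSubgroup_isOpen R)
  have hCclosed := Subgroup.isClosed_of_isOpen C hCopen
  let CC : ClosedSubgroup (AlgebraicClosure K ≃ₐ[K] AlgebraicClosure K) :=
    { C with isClosed' := hCclosed }
  set L₀ : IntermediateField K (AlgebraicClosure K) := IntermediateField.fixedField C with hL₀
  have hfixL : L₀.fixingSubgroup = C := InfiniteGalois.fixingSubgroup_fixedField CC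
  have hL₀mem : ∀ x, x ∈ L₀ ↔ ∀ g ∈ C, g x = x := by
    intro x
    rw [hL₀, IntermediateField.mem_fixedField_iff]
  have hLR : L₀ ≤ R := by
    intro x hx
    rw [← InfiniteGalois.fixedField_fixingSubgroup R, IntermediateField.mem_fixedField_iff]
    intro g hg
    exact (hL₀mem x).1 hx g (hRC hg)
  have hFL : F ≤ L₀ := by
    intro x hx
    rw [hL₀mem]
    intro g hg
    exact ((hCmem g).1 hg).1 x hx
  haveI hfinKR : FiniteDimensional K R := inferInstance
  haveI hfinKL : FiniteDimensional K L₀ :=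
    FiniteDimensional.of_injective (IntermediateField.inclusion hLR).toLinearMap
      (IntermediateField.inclusion hLR).injective
  haveI hNL : NumberField L₀ := NumberField.of_module_finite K L₀
  letI algFL : Algebra F L₀ := (IntermediateField.inclusion hFL).toRingHom.toAlgebra
  have hmap : ∀ x : F, ((algebraMap F L₀ x : L₀) : AlgebraicClosure K) = x := fun x => rfl
  haveI : IsScalarTower K F L₀ := IsScalarTower.of_algebraMap_eq fun x => rfl
  haveI : FiniteDimensional F L₀ := FiniteDimensional.right K F L₀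
  -- the action of the elements which fix `F`
  have hact : ∀ g : AlgebraicClosure K ≃ₐ[K] AlgebraicClosure K, (∀ x ∈ F, g x = x) →
      ∀ x ∈ L₀, g x ∈ L₀ := by
    intro g hg x hx
    rw [hL₀mem]
    intro c hc
    have hg' : ∀ x ∈ F, g⁻¹ x = x := by
      intro x hx
      have h : g⁻¹ (g x) = x := by
        rw [← AlgEquiv.mul_apply, inv_mul_cancel, AlgEquiv.one_apply]
      rwa [hg x hx] at h
    have hc1 := ((hCmem c).1 hc).1
    have hc2 := ((hCmem c).1 hc).2
    have hcg1 : ∀ x ∈ F, (c * g) x = x := by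
      intro x hx
      rw [AlgEquiv.mul_apply, hg x hx, hc1 x hx]
    have hconj : g⁻¹ * (c * g) ∈ C := by
      rw [hCmem]
      refine ⟨fun x hx => ?_, ?_⟩
      · rw [AlgEquiv.mul_apply, hcg1 x hx, hg' x hx]
      · rw [hφ _ _ hg' hcg1, hφ _ _ hc1 hg, hc2, zero_add]
        have h := hφ g⁻¹ g hg' hg
        rw [inv_mul_cancel, hone] at h
        exact h.symm
    have h := (hL₀mem x).1 hx _ hconj
    have h2 : g ((g⁻¹ * (c * g)) x) = c (g x) := by
      rw [← AlgEquiv.mul_apply, mul_inv_cancel_left, AlgEquiv.mul_apply]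
    rw [h] at h2
    exact h2.symm
  have hΓ : ∀ g : F.fixingSubgroup, ∀ x ∈ F,
      (g : AlgebraicClosure K ≃ₐ[K] AlgebraicClosure K) x = x := fun g =>
    (IntermediateField.mem_fixingSubgroup_iff F _).1 g.2
  let ρ0 : F.fixingSubgroup → (L₀ →ₐ[F] L₀) := fun g =>
    { toFun := fun x => ⟨(g : AlgebraicClosure K ≃ₐ[K] AlgebraicClosure K) x,
        hact g (hΓ g) x x.2⟩
      map_one' := Subtype.ext (map_one _)
      map_mul' := fun x y => Subtype.ext (map_mul _ _ _)
      map_zero' := Subtype.ext (map_zero _)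
      map_add' := fun x y => Subtype.ext (map_add _ _ _)
      commutes' := fun x => Subtype.ext (hΓ g x x.2) }
  have hρ0 : ∀ g x, ((ρ0 g x : L₀) : AlgebraicClosure K) =
      (g : AlgebraicClosure K ≃ₐ[K] AlgebraicClosure K) x := fun g x => rfl
  let ρ1 : F.fixingSubgroup →* (L₀ →ₐ[F] L₀) :=
    { toFun := ρ0
      map_one' := by
        ext x
        rfl
      map_mul' := fun g h => by
        ext x
        rfl }
  let ρ : F.fixingSubgroup →* (L₀ ≃ₐ[F] L₀) :=
    (AlgEquiv.algHomUnitsEquiv F L₀).toMonoidHom.comp ρ1.toHomUnits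
  have hρ : ∀ g x, ((ρ g x : L₀) : AlgebraicClosure K) =
      (g : AlgebraicClosure K ≃ₐ[K] AlgebraicClosure K) x := fun g x => rfl
  let φ' : F.fixingSubgroup →* Multiplicative (ZMod (p ^ k)) :=
    { toFun := fun g => Multiplicative.ofAdd (φ g)
      map_one' := by
        show Multiplicative.ofAdd (φ 1) = 1
        rw [hone]
        rfl
      map_mul' := fun g h => by
        show Multiplicative.ofAdd (φ (g * h)) = Multiplicative.ofAdd (φ g) * Multiplicative.ofAdd (φ h)
        rw [hφ _ _ (hΓ g) (hΓ h)]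
        rfl }
  have hφ'surj : Function.Surjective φ' := by
    obtain ⟨a, ha, hu⟩ := hunit
    intro y
    let a' : F.fixingSubgroup := ⟨a, (IntermediateField.mem_fixingSubgroup_iff F _).2 ha⟩
    obtain ⟨u, hu⟩ := hu
    refine ⟨a' ^ (Multiplicative.toAdd y * (u⁻¹ : (ZMod (p ^ k))ˣ)).val, ?_⟩
    rw [map_pow]
    apply Multiplicative.toAdd.injective
    rw [toAdd_pow]
    show _ • φ a = _
    rw [← hu, nsmul_eq_mul, ZMod.natCast_zmod_val, mul_assoc, Units.inv_mul, mul_one]
  obtain ⟨hG1, hG2, hG3⟩ := core F L₀ F.fixingSubgroup ρ (by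
      intro x hx
      have hxF : (x : AlgebraicClosure K) ∈ F := by
        rw [← InfiniteGalois.fixedField_fixingSubgroup F, IntermediateField.mem_fixedField_iff]
        intro g hg
        have h := congrArg (fun z : L₀ => (z : AlgebraicClosure K)) (hx ⟨g, hg⟩)
        exact h
      exact ⟨⟨x, hxF⟩, Subtype.ext rfl⟩) (p ^ k) φ' hφ'surj (by
      intro g
      have h1 : ρ g = 1 ↔ (g : AlgebraicClosure K ≃ₐ[K] AlgebraicClosure K) ∈ L₀.fixingSubgroup := by
        rw [IntermediateField.mem_fixingSubgroup_iff]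
        constructor
        · intro h x hx
          have h' := hρ g ⟨x, hx⟩
          rw [h] at h'
          exact h'.symm
        · intro h
          ext x
          rw [hρ]
          exact h x x.2
      rw [h1, hfixL, hCmem]
      constructor
      · intro h
        show Multiplicative.ofAdd (φ g) = 1
        rw [h.2]
        rfl
      · intro h
        exact ⟨hΓ g, Multiplicative.ofAdd.injective h⟩)
  refine ⟨L₀, inferInstance, hNL, algFL, (L₀.val : L₀ →+* AlgebraicClosure K), fun x => rfl, hG1,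
    hG2, hG3, fun x => hLR x.2, ?_⟩
  intro g
  rw [← hCmem, ← hfixL, IntermediateField.mem_fixingSubgroup_iff]
  exact ⟨fun h x hx => h ⟨x, hx⟩, fun h x => h x x.2⟩

end Pool.Agent.Helper7.SD.B_EXT
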